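import Pool.Agent.Helper11K9.DPT.Fin

/-!
The exceptional curves of a smooth double plane of degree two lie over finitely many lines.
-/

namespace Pool.Agent.Helper11K9.DPT

open MvPolynomial Pool.Agent.R865.DP

variable {K : Type*} [Field K]

/-- the equation along the curve with parameters `(s : t)`, as a polynomial in the coordinates of
`u`, `w`, `g` -/
noncomputable def par (q f : MvPolynomial (Fin 3) K) (s t : K) :
    MvPolynomial (Fin 3 × Fin 3) K :=
  (C (s ^ 2) * X (2, 0) + C (s * t) * X (2, 1) + C (t ^ 2) * X (2, 2)) ^ 2 +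
    aeval (fun l => C s * X ((0 : Fin 3), l) + C t * X ((1 : Fin 3), l) :
      Fin 3 → MvPolynomial (Fin 3 × Fin 3) K) q *
    (C (s ^ 2) * X (2, 0) + C (s * t) * X (2, 1) + C (t ^ 2) * X (2, 2)) -
    aeval (fun l => C s * X ((0 : Fin 3), l) + C t * X ((1 : Fin 3), l) :
      Fin 3 → MvPolynomial (Fin 3 × Fin 3) K) f

theorem aeval_par (q f : MvPolynomial (Fin 3) K) (s t : K) {A : Type*} [CommRing A] [Algebra K A]
    (D : Fin 3 × Fin 3 → A) :
    aeval D (par q f s t) =
      (algebraMap K A (s ^ 2) * D (2, 0) + algebraMap K A (s * t) * D (2, 1) +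
        algebraMap K A (t ^ 2) * D (2, 2)) ^ 2 +
      aeval (fun l => algebraMap K A s * D (0, l) + algebraMap K A t * D (1, l)) q *
      (algebraMap K A (s ^ 2) * D (2, 0) + algebraMap K A (s * t) * D (2, 1) +
        algebraMap K A (t ^ 2) * D (2, 2)) -
      aeval (fun l => algebraMap K A s * D (0, l) + algebraMap K A t * D (1, l)) f := by
  have hc : ∀ p : MvPolynomial (Fin 3) K, aeval D (aeval (fun l => C s * X ((0 : Fin 3), l) +
      C t * X ((1 : Fin 3), l) : Fin 3 → MvPolynomial (Fin 3 × Fin 3) K) p) =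
      aeval (fun l => algebraMap K A s * D (0, l) + algebraMap K A t * D (1, l)) p := by
    intro p
    rw [← AlgHom.comp_apply, comp_aeval]
    congr 2
    funext l
    simp only [map_add, map_mul, aeval_X, ← MvPolynomial.algebraMap_eq, AlgHom.commutes]
  unfold par
  rw [map_sub, map_add, map_mul (aeval D) (aeval _ q), map_pow (aeval D), hc, hc]
  simp only [map_add, map_mul, aeval_X, aeval_C]

theorem exceptional_lines [IsAlgClosed K] {q f : MvPolynomial (Fin 3) K}
    (hX : IsDelPezzoTwo q f) :
    ∃ H : Set (Fin 3 → K), H.Finite ∧ (∀ h ∈ H, h ≠ 0) ∧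
      ∀ u w g : Fin 3 → K, IsExceptional q f u w g →
        ∃ h ∈ H, ∀ s t : K, ∑ l, h l * (s • u + t • w) l = 0 := by
  classical
  -- normalised curves
  let N : Fin 3 → Fin 3 → Set ((Fin 3 → K) × (Fin 3 → K) × (Fin 3 → K)) := fun i j =>
    {ℓ | ℓ.1 i = 1 ∧ ℓ.1 j = 0 ∧ ℓ.2.1 i = 0 ∧ ℓ.2.1 j = 1 ∧
      ∀ s t : K, bq ℓ.2.2 s t ^ 2 + aeval (s • ℓ.1 + t • ℓ.2.1) q * bq ℓ.2.2 s t =
        aeval (s • ℓ.1 + t • ℓ.2.1) f}
  have hind : ∀ i j, ∀ ℓ ∈ N i j, LinearIndependent K ![ℓ.1, ℓ.2.1] := by
    rintro i j ⟨u, w, g⟩ ⟨h1, h2, h3, h4, -⟩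
    simp only at h1 h2 h3 h4
    rw [LinearIndependent.pair_iff]
    intro s t hst
    simp only at hst
    constructor
    · have := congrFun hst i
      simpa [h1, h3] using this
    · have := congrFun hst j
      simpa [h2, h4] using this
  have hfin : ∀ i j, (N i j).Finite := by
    intro i j
    let S : Set (MvPolynomial (Fin 3 × Fin 3) K) :=
      {X (0, i) - 1, X (0, j), X (1, i), X (1, j) - 1} ∪ {p | ∃ s t : K, p = par q f s t}
    have hSfin : {x : Fin 3 × Fin 3 → K | ∀ p ∈ S, aeval x p = 0}.Finite := by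
      apply finite_zeros
      intro x v hv
      have e1 := aeval_zero_of_dual x v _ (hv (X (0, i) - 1) (Or.inl (by simp)))
      have e2 := aeval_zero_of_dual x v _ (hv (X (0, j)) (Or.inl (by simp)))
      have e3 := aeval_zero_of_dual x v _ (hv (X (1, i)) (Or.inl (by simp)))
      have e4 := aeval_zero_of_dual x v _ (hv (X (1, j) - 1) (Or.inl (by simp)))
      have hsum : ∀ q : Fin 3 × Fin 3, ∑ j, aeval x (pderiv j (X q : MvPolynomial _ K)) * v j
          = v q := by
        intro q
        rw [Finset.sum_eq_single q]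
        · simp
        · intro b _ hb
          simp [pderiv_X, Pi.single_apply, Ne.symm hb]
        · simp
      have hsum' : ∀ q : Fin 3 × Fin 3, ∑ j, aeval x (pderiv j (X q - 1 : MvPolynomial _ K)) * v j
          = v q := by
        intro q
        rw [← hsum q]
        simp
      rw [hsum'] at e1 e4
      rw [hsum] at e2 e3
      simp only [map_sub, aeval_X, map_one, sub_eq_zero] at e1 e2 e3 e4
      let u : Fin 3 → K := fun l => x (0, l)
      let w : Fin 3 → K := fun l => x (1, l)
      let g : Fin 3 → K := fun l => x (2, l)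
      let u' : Fin 3 → K := fun l => v (0, l)
      let w' : Fin 3 → K := fun l => v (1, l)
      let g' : Fin 3 → K := fun l => v (2, l)
      have hline : ∀ s t : K, bq g s t ^ 2 + aeval (s • u + t • w) q * bq g s t =
            aeval (s • u + t • w) f ∧
          dd q (s • u + t • w) (s • u' + t • w') * bq g s t -
            dd f (s • u + t • w) (s • u' + t • w') +
            (2 * bq g s t + aeval (s • u + t • w) q) * bq g' s t = 0 := by
        intro s t
        have h1 := hv (par q f s t) (Or.inr ⟨s, t, rfl⟩)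
        rw [aeval_par] at h1
        refine dual_eq q f (s • u + t • w) (s • u' + t • w') (bq g s t) (bq g' s t) _ _
          ?_ ?_ ?_ ?_ h1
        · intro l
          simp [u, w, TrivSqZeroExt.algebraMap_eq_inl]
        · intro l
          simp [u', w', TrivSqZeroExt.algebraMap_eq_inl]
        · simp [g, bq, TrivSqZeroExt.algebraMap_eq_inl, pow_two]
        · simp [g', bq, TrivSqZeroExt.algebraMap_eq_inl, pow_two]
      have hindep : LinearIndependent K ![u, w] := hind i j (u, w, g)
        ⟨e1.1, e2.1, e3.1, e4.1, fun s t => (hline s t).1⟩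
      obtain ⟨hmem, hg⟩ := no_deformation hX u w g u' w' g' hindep
        (fun s t => (hline s t).1) (fun s t => (hline s t).2)
      rw [Submodule.mem_span_pair, Submodule.mem_span_pair] at hmem
      obtain ⟨⟨a, b, hab⟩, ⟨a', b', hab'⟩⟩ := hmem
      have hi := congrFun hab i
      have hj := congrFun hab j
      have hi' := congrFun hab' i
      have hj' := congrFun hab' j
      simp only [Pi.add_apply, Pi.smul_apply, smul_eq_mul, u, w, u', w', e1.1, e2.1, e3.1, e4.1,
        e1.2, e2.2, e3.2, e4.2, mul_one, mul_zero, add_zero, zero_add] at hi hj hi' hj'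
      subst hi hj hi' hj'
      have hu0 : u' = 0 := by rw [← hab]; simp
      have hw0 : w' = 0 := by rw [← hab']; simp
      have hg0 := hg hu0 hw0
      funext ⟨m, l⟩
      fin_cases m
      · exact congrFun hu0 l
      · exact congrFun hw0 l
      · exact congrFun hg0 l
    apply (hSfin.image (fun x => ((fun l => x (0, l), fun l => x (1, l), fun l => x (2, l)) :
      (Fin 3 → K) × (Fin 3 → K) × (Fin 3 → K)))).subset
    rintro ⟨u, w, g⟩ ⟨h1, h2, h3, h4, h5⟩
    simp only at h1 h2 h3 h4 h5
    refine ⟨fun m => ![u, w, g] m.1 m.2, ?_, ?_⟩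
    · rintro p (hp | ⟨s, t, rfl⟩)
      · simp only [Set.mem_insert_iff, Set.mem_singleton_iff] at hp
        rcases hp with rfl | rfl | rfl | rfl
        · simp [h1]
        · simp [h2]
        · simp [h3]
        · simp [h4]
      · rw [aeval_par]
        have h6 : (fun l => algebraMap K K s * (![u, w, g] ((0 : Fin 3), l).1 ((0 : Fin 3), l).2) +
            algebraMap K K t * (![u, w, g] ((1 : Fin 3), l).1 ((1 : Fin 3), l).2)) =
            s • u + t • w := by
          funext l
          simp
        have h7 : algebraMap K K (s ^ 2) * (![u, w, g] ((2 : Fin 3), (0 : Fin 3)).1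
            ((2 : Fin 3), (0 : Fin 3)).2) + algebraMap K K (s * t) *
            (![u, w, g] ((2 : Fin 3), (1 : Fin 3)).1 ((2 : Fin 3), (1 : Fin 3)).2) +
            algebraMap K K (t ^ 2) * (![u, w, g] ((2 : Fin 3), (2 : Fin 3)).1
            ((2 : Fin 3), (2 : Fin 3)).2) = bq g s t := by
          simp [bq]
        rw [h6, h7]
        exact sub_eq_zero.mpr (h5 s t)
    · simp
  -- a linear form for every normalised curve
  have hform : ∀ ℓ : (Fin 3 → K) × (Fin 3 → K) × (Fin 3 → K), ∃ h : Fin 3 → K, h ≠ 0 ∧
      (∑ l, h l * ℓ.1 l = 0) ∧ ∑ l, h l * ℓ.2.1 l = 0 := by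
    intro ℓ
    obtain ⟨p, hp0, hp⟩ := one_in_ker (K := K) (a := 3) (b := 2) (by norm_num)
      (LinearMap.pi ![∑ l, ℓ.1 l • LinearMap.proj l, ∑ l, ℓ.2.1 l • LinearMap.proj l])
    refine ⟨p, hp0, ?_, ?_⟩
    · have := congrFun hp 0
      simp only [LinearMap.pi_apply, Matrix.cons_val_zero, LinearMap.sum_apply,
        LinearMap.smul_apply, LinearMap.proj_apply, smul_eq_mul, Pi.zero_apply] at this
      rw [← this]
      exact Finset.sum_congr rfl fun l _ => mul_comm _ _
    · have := congrFun hp 1
      simp only [LinearMap.pi_apply, Matrix.cons_val_one, LinearMap.sum_apply,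
        LinearMap.smul_apply, LinearMap.proj_apply, smul_eq_mul, Pi.zero_apply] at this
      rw [← this]
      exact Finset.sum_congr rfl fun l _ => mul_comm _ _
  choose F hF0 hF1 hF2 using hform
  refine ⟨F '' (⋃ i, ⋃ j, N i j),
    (Set.finite_iUnion fun i => Set.finite_iUnion fun j => hfin i j).image F, ?_, ?_⟩
  · rintro _ ⟨ℓ, -, rfl⟩
    exact hF0 ℓ
  · rintro u w g ⟨huw, hline⟩
    -- find a pivot
    have : ∃ i j, u i * w j - u j * w i ≠ 0 := by
      by_contra hcon
      push Not at hcon
      have hu : u ≠ 0 := by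
        have := huw.ne_zero 0
        simpa using this
      obtain ⟨i, hi⟩ := Function.ne_iff.mp hu
      simp only [Pi.zero_apply] at hi
      rw [LinearIndependent.pair_iff] at huw
      have := huw (w i) (-(u i)) (by
        funext j
        have := hcon i j
        simp only [Pi.add_apply, Pi.smul_apply, smul_eq_mul, Pi.zero_apply]
        linear_combination -this)
      exact hi (by simpa using this.2)
    obtain ⟨i, j, hd⟩ := this
    set d := u i * w j - u j * w i with hddef
    let u₁ : Fin 3 → K := (w j / d) • u - (u j / d) • w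
    let w₁ : Fin 3 → K := -(w i / d) • u + (u i / d) • w
    let g₁ : Fin 3 → K := ![bq g (w j / d) (-(u j / d)),
      2 * (w j / d) * (-(w i / d)) * g 0 + ((w j / d) * (u i / d) + (u j / d) * (w i / d)) * g 1 +
        2 * (-(u j / d)) * (u i / d) * g 2, bq g (-(w i / d)) (u i / d)]
    have hu : u = u i • u₁ + u j • w₁ := by
      funext l
      simp only [u₁, w₁, Pi.add_apply, Pi.smul_apply, Pi.sub_apply, smul_eq_mul]
      field_simp
      rw [hddef]
      ring
    have hw : w = w i • u₁ + w j • w₁ := by
      funext l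
      simp only [u₁, w₁, Pi.add_apply, Pi.smul_apply, Pi.sub_apply, smul_eq_mul]
      field_simp
      rw [hddef]
      ring
    refine ⟨F (u₁, w₁, g₁), ⟨_, ?_, rfl⟩, ?_⟩
    · simp only [Set.mem_iUnion]
      refine ⟨i, j, ?_, ?_, ?_, ?_, ?_⟩
      · simp only [u₁, Pi.sub_apply, Pi.smul_apply, smul_eq_mul]
        field_simp
        rw [hddef]; ring
      · simp only [u₁, Pi.sub_apply, Pi.smul_apply, smul_eq_mul]
        field_simp
        ring
      · simp only [w₁, Pi.add_apply, Pi.smul_apply, smul_eq_mul]
        field_simp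
        ring
      · simp only [w₁, Pi.add_apply, Pi.smul_apply, smul_eq_mul]
        field_simp
        rw [hddef]; ring
      · intro s t
        have h1 := hline (s * (w j / d) - t * (w i / d)) (-(s * (u j / d)) + t * (u i / d))
        have h2 : (s * (w j / d) - t * (w i / d)) • u + (-(s * (u j / d)) + t * (u i / d)) • w =
            s • u₁ + t • w₁ := by
          simp only [u₁, w₁]
          module
        have h3 : bq g (s * (w j / d) - t * (w i / d)) (-(s * (u j / d)) + t * (u i / d)) =
            bq g₁ s t := by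
          simp only [bq, g₁, Matrix.cons_val_zero, Matrix.cons_val_one, Matrix.cons_val]
          ring
        rw [h2, h3] at h1
        exact h1
    · intro s t
      have h1 : s • u + t • w = (s * u i + t * w i) • u₁ + (s * u j + t * w j) • w₁ := by
        conv_lhs => rw [hu, hw]
        module
      rw [h1]
      have h2 : ∑ l, F (u₁, w₁, g₁) l * ((s * u i + t * w i) • u₁ + (s * u j + t * w j) • w₁) l =
          (s * u i + t * w i) * ∑ l, F (u₁, w₁, g₁) l * u₁ l +
          (s * u j + t * w j) * ∑ l, F (u₁, w₁, g₁) l * w₁ l := by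
        rw [Finset.mul_sum, Finset.mul_sum, ← Finset.sum_add_distrib]
        apply Finset.sum_congr rfl
        intro l _
        simp only [Pi.add_apply, Pi.smul_apply, smul_eq_mul]
        ring
      rw [h2, hF1 (u₁, w₁, g₁), hF2 (u₁, w₁, g₁)]
      ring

end Pool.Agent.Helper11K9.DPT
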