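import Pool.Agent.R865.DPDefs

/-!
Definitions for del Pezzo surfaces of degree two: double planes `w ^ 2 + q w = f` in the
weighted projective space `P(1, 1, 1, 2)`, in every characteristic.
-/

namespace Pool.Agent.Helper11K9.DPT

open MvPolynomial

/-- `w ^ 2 + q w = f` defines a del Pezzo surface `X` of degree `2` over an algebraically closed
field `K` (of any characteristic), anticanonically embedded in `P(1, 1, 1, 2)`: `q` and `f` are
forms of degree `2` and `4` in three variables, and by the Jacobian criterion `X` is smooth at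
every point `(x : w)` (all points have `x ≠ 0`). -/
structure IsDelPezzoTwo {K : Type*} [Field K] (q f : MvPolynomial (Fin 3) K) : Prop where
  homog_q : q.IsHomogeneous 2
  homog_f : f.IsHomogeneous 4
  smooth : ∀ (x : Fin 3 → K) (w : K), x ≠ 0 → w ^ 2 + aeval x q * w = aeval x f →
    2 * w + aeval x q ≠ 0 ∨ ∃ l, aeval x (pderiv l q) * w - aeval x (pderiv l f) ≠ 0

/-- The geometric point `(x : w)` of `P(1, 1, 1, 2)`: the set of all its coordinate vectors
`(t x, t ^ 2 w)`. -/
def wpoint {K : Type*} [Field K] (x : Fin 3 → K) (w : K) : Set ((Fin 3 → K) × K) :=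
  {y | ∃ t : K, t ≠ 0 ∧ y = (t • x, t ^ 2 * w)}

/-- The binary quadratic form with coefficients `g 0, g 1, g 2`. -/
def bq {K : Type*} [Field K] (g : Fin 3 → K) (s t : K) : K :=
  s ^ 2 * g 0 + s * t * g 1 + t ^ 2 * g 2

/-- An exceptional curve of `X`: the curve of all points `(s u + t v : g(s, t))`, where
`s u + t v` runs through a line of the plane and `g` is a binary quadratic form, if it is contained
in `X`. (These are exactly the curves `E` with `-K . E = 1`, that is, the `(-1)`-curves.) -/
structure IsExceptional {K : Type*} [Field K] (q f : MvPolynomial (Fin 3) K)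
    (u v g : Fin 3 → K) : Prop where
  indep : LinearIndependent K ![u, v]
  mem : ∀ s t : K, bq g s t ^ 2 + aeval (s • u + t • v) q * bq g s t = aeval (s • u + t • v) f

/-- A set `S` of at most one geometric point of the del Pezzo surface `X` of degree two is in
general position: its point does not lie on an exceptional curve and no anticanonical curve
`h(x) = 0` of `X` through it is singular at it (the gradients of `w ^ 2 + q w - f` and `h` are
independent). This is equivalent to the blow-up of `X` in `S` being a del Pezzo surface. -/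
structure InGeneralPositionTwo {K : Type*} [Field K] (q f : MvPolynomial (Fin 3) K)
    (S : Set (Set ((Fin 3 → K) × K))) : Prop where
  finite : S.Finite
  card : S.ncard ≤ 1
  mem : ∀ P ∈ S, ∃ (x : Fin 3 → K) (w : K), x ≠ 0 ∧ P = wpoint x w ∧
    w ^ 2 + aeval x q * w = aeval x f
  curves : ∀ u v g : Fin 3 → K, IsExceptional q f u v g → ∀ s t : K, (s ≠ 0 ∨ t ≠ 0) →
    wpoint (s • u + t • v) (bq g s t) ∉ S
  sections : ∀ (x : Fin 3 → K) (w : K), x ≠ 0 → wpoint x w ∈ S → ∀ h : Fin 3 → K, h ≠ 0 →
    ∑ l, h l * x l = 0 →
    LinearIndependent K ![((h, 0) : (Fin 3 → K) × K),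
      ((fun l => aeval x (pderiv l q) * w - aeval x (pderiv l f)), 2 * w + aeval x q)]

/-- `O` is a closed point, with residue field separable over `k`, of the surface
`w ^ 2 + q w = f` over `k`, given by its set of geometric points: the orbit under the
automorphisms of `K` over `k` of a point with coordinates separable over `k`. Its degree is the
cardinality of `O`. -/
def IsSepClosedPointTwo {k : Type*} (K : Type*) [Field k] [Field K] [Algebra k K]
    (q f : MvPolynomial (Fin 3) k) (O : Set (Set ((Fin 3 → K) × K))) : Prop :=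
  ∃ (x : Fin 3 → K) (w : K), x ≠ 0 ∧ (∀ i, IsSeparable k (x i)) ∧ IsSeparable k w ∧
    w ^ 2 + aeval x q * w = aeval x f ∧
    O = {P | ∃ τ : K ≃ₐ[k] K, P = wpoint (fun i => τ (x i)) (τ w)}

/-- The surface `X`, `w ^ 2 + q w = f`, over `k` is unirational: there is a dominant rational map
`(φ : ψ)` over `k` from the projective plane to `X`, given by forms `φ 0, φ 1, φ 2` of degree `r`
and `ψ` of degree `2 r`. Dominance is expressed as density of the image in the set of `K`-points
of `X` (every weighted form vanishing on the image vanishes on `X`). -/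
def IsUnirationalTwo {k : Type*} (K : Type*) [Field k] [Field K] [Algebra k K]
    (q f : MvPolynomial (Fin 3) k) : Prop :=
  ∃ (r : ℕ) (φ : Fin 3 → MvPolynomial (Fin 3) k) (ψ : MvPolynomial (Fin 3) k),
    (∀ i, (φ i).IsHomogeneous r) ∧ ψ.IsHomogeneous (2 * r) ∧
    ψ ^ 2 + aeval φ q * ψ = aeval φ f ∧
    ∀ (m : ℕ) (G : MvPolynomial (Fin 4) K), G.IsWeightedHomogeneous ![1, 1, 1, 2] m →
      (∀ y : Fin 3 → K,
        aeval ![aeval y (φ 0), aeval y (φ 1), aeval y (φ 2), aeval y ψ] G = 0) →
      ∀ (x : Fin 3 → K) (w : K), w ^ 2 + aeval x q * w = aeval x f →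
        aeval ![x 0, x 1, x 2, w] G = 0

end Pool.Agent.Helper11K9.DPT
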