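import Pool.Agent.Helper11K9.DPT.Rig

/-!
Rigidity and finiteness of the exceptional curves on smooth double planes of degree two.
-/

namespace Pool.Agent.Helper11K9.DPT

open MvPolynomial Pool.Agent.R865.DP

variable {K : Type*} [Field K]

/-- the derivative in the direction `z` as a form -/
noncomputable def fz (f : MvPolynomial (Fin 3) K) (z : Fin 3 → K) : MvPolynomial (Fin 3) K :=
  ∑ l, C (z l) * pderiv l f

theorem aeval_fz (f : MvPolynomial (Fin 3) K) (z x : Fin 3 → K) :
    aeval x (fz f z) = dd f x z := by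
  unfold fz dd
  rw [map_sum]
  apply Finset.sum_congr rfl
  intro l _
  rw [map_mul, aeval_C]
  simp [mul_comm]

theorem fz_homog (f : MvPolynomial (Fin 3) K) (hf : f.IsHomogeneous 4) (z : Fin 3 → K) :
    (fz f z).IsHomogeneous 3 := by
  unfold fz
  apply IsHomogeneous.sum
  intro l _
  have := (isHomogeneous_C (Fin 3) (z l)).mul (hf.pderiv (i := l))
  simpa using this

/-- No first order deformations of exceptional curves. -/
theorem no_deformation [IsAlgClosed K] {q f : MvPolynomial (Fin 3) K} (hX : IsDelPezzoTwo q f)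
    (u w g u' w' g' : Fin 3 → K) (h : LinearIndependent K ![u, w])
    (hmem : ∀ s t : K, bq g s t ^ 2 + aeval (s • u + t • w) q * bq g s t =
      aeval (s • u + t • w) f)
    (htan : ∀ s t : K, dd q (s • u + t • w) (s • u' + t • w') * bq g s t -
      dd f (s • u + t • w) (s • u' + t • w') +
      (2 * bq g s t + aeval (s • u + t • w) q) * bq g' s t = 0) :
    (u' ∈ Submodule.span K {u, w} ∧ w' ∈ Submodule.span K {u, w}) ∧
      (u' = 0 → w' = 0 → g' = 0) := by
  obtain ⟨z, hz⟩ := exists_extend (by norm_num) _ h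
  have hz3 : LinearIndependent K ![z, u, w] := hz
  have hspan : ∀ y : Fin 3 → K, ∃ a b c : K, y = a • z + b • u + c • w := by
    intro y
    have hs : Submodule.span K (Set.range ![z, u, w]) = ⊤ :=
      hz3.span_eq_top_of_card_eq_finrank' (by simp)
    have hy : y ∈ Submodule.span K (Set.range ![z, u, w]) := by rw [hs]; trivial
    rw [Submodule.mem_span_range_iff_exists_fun] at hy
    obtain ⟨c, hc⟩ := hy
    refine ⟨c 0, c 1, c 2, ?_⟩
    rw [← hc, Fin.sum_univ_three]
    rfl
  obtain ⟨a, a1, a2, hu'⟩ := hspan u'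
  obtain ⟨b, b1, b2, hw'⟩ := hspan w'
  have hq := quad_expand q hX.homog_q u w
  obtain ⟨β, hc1, hc2, -, -, -, -⟩ := cubic_expand (fz f z) (fz_homog f hX.homog_f z) u w
  have hA : ∀ s t : K, 2 * bq g s t + aeval (s • u + t • w) q =
      s ^ 2 * (2 * g 0 + aeval u q) + s * t * (2 * g 1 + dd q u w) +
        t ^ 2 * (2 * g 2 + aeval w q) := by
    intro s t
    rw [hq.2.1, bq]
    ring
  have hB : ∀ s t : K, dd q (s • u + t • w) z * bq g s t - dd f (s • u + t • w) z =
      s ^ 3 * (dd q u z * g 0 - aeval u (fz f z)) +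
        s ^ 2 * t * (dd q u z * g 1 + dd q w z * g 0 - dd (fz f z) u w) +
        s * t ^ 2 * (dd q u z * g 2 + dd q w z * g 1 - dd (fz f z) w u) +
        t ^ 3 * (dd q w z * g 2 - aeval w (fz f z)) := by
    intro s t
    rw [← aeval_fz f z (s • u + t • w), hc2, hq.1, bq]
    ring
  have hrel := forms_relation (2 * g 0 + aeval u q) (2 * g 1 + dd q u w) (2 * g 2 + aeval w q)
    (dd q u z * g 0 - aeval u (fz f z))
    (dd q u z * g 1 + dd q w z * g 0 - dd (fz f z) u w)
    (dd q u z * g 2 + dd q w z * g 1 - dd (fz f z) w u)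
    (dd q w z * g 2 - aeval w (fz f z)) a b
    (g' 0 - (2 * g 0 * a1 + g 1 * a2))
    (g' 1 - (2 * g 0 * b1 + g 1 * a1 + g 1 * b2 + 2 * g 2 * a2))
    (g' 2 - (g 1 * b1 + 2 * g 2 * b2)) ?_ ?_
  · obtain ⟨ha, hb, h0, h1, h2⟩ := hrel
    refine ⟨⟨?_, ?_⟩, ?_⟩
    · rw [Submodule.mem_span_pair]
      exact ⟨a1, a2, by rw [hu', ha]; simp⟩
    · rw [Submodule.mem_span_pair]
      exact ⟨b1, b2, by rw [hw', hb]; simp⟩
    · intro hu0 hw0
      rw [ha, hu0, zero_smul, zero_add] at hu'
      rw [hb, hw0, zero_smul, zero_add] at hw'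
      have h' := h
      rw [LinearIndependent.pair_iff] at h'
      obtain ⟨rfl, rfl⟩ := h' a1 a2 hu'.symm
      obtain ⟨rfl, rfl⟩ := h' b1 b2 hw'.symm
      funext i
      fin_cases i
      · simpa using h0
      · simpa using h1
      · simpa using h2
  · intro s t hst hA0
    rw [← hB, ]
    rw [← hA] at hA0
    intro hB0
    have hx : s • u + t • w ≠ 0 := ne_zero_of_indep h hst
    rcases hX.smooth (s • u + t • w) (bq g s t) hx (hmem s t) with h1 | ⟨l, h1⟩
    · exact h1 hA0
    · apply h1
      let Λ : (Fin 3 → K) →ₗ[K] K :=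
        (bq g s t) • ddL q (s • u + t • w) - ddL f (s • u + t • w)
      have hΛ : ∀ y, Λ y = dd q (s • u + t • w) y * bq g s t - dd f (s • u + t • w) y := by
        intro y
        simp [Λ, mul_comm]
      have e1 := dual_line q f u w g hmem s t 1 0
      have e2 := dual_line q f u w g hmem s t 0 1
      rw [hA0] at e1 e2
      have hΛ0 : Λ = 0 := by
        apply functional_zero ![z, u, w] hz3
        intro i
        fin_cases i
        · change Λ z = 0
          rw [hΛ]; exact hB0
        · change Λ u = 0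
          rw [hΛ]
          simpa using e1
        · change Λ w = 0
          rw [hΛ]
          simpa using e2
      have h3 := hΛ (Pi.single l 1)
      rw [hΛ0, ← aeval_pderiv_eq_dd, ← aeval_pderiv_eq_dd] at h3
      simpa using h3.symm
  · intro s t
    have e1 := htan s t
    have e2 := dual_line q f u w g hmem s t (s * a1 + t * b1) (s * a2 + t * b2)
    have hv : s • u' + t • w' = (s * a + t * b) • z + ((s * a1 + t * b1) • u +
        (s * a2 + t * b2) • w) := by
      rw [hu', hw']
      module
    rw [hv, dd_add_right, dd_add_right f, dd_smul_right, dd_smul_right f] at e1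
    rw [← hB, ← hA]
    simp only [bq] at e1 e2 ⊢
    linear_combination e1 - e2

end Pool.Agent.Helper11K9.DPT
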