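import Pool.Agent.Helper11K9.DPT.Main

/-!
Closed points in general position on unirational del Pezzo surfaces of degree two.
-/

universe u

namespace Pool.Agent.Helper11K9.DPT

open MvPolynomial Pool.Agent.R865.DP

theorem mem_wpoint {K : Type*} [Field K] (x : Fin 3 → K) (w : K) : (x, w) ∈ wpoint x w :=
  ⟨1, one_ne_zero, by simp⟩

/-- The point found in `Main` is in general position. -/
theorem general_position {K : Type*} [Field K] [IsAlgClosed K] {q f : MvPolynomial (Fin 3) K}
    (hX : IsDelPezzoTwo q f) (H : Set (Fin 3 → K))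
    (hH : ∀ u w g : Fin 3 → K, IsExceptional q f u w g →
      ∃ h ∈ H, ∀ s t : K, ∑ l, h l * (s • u + t • w) l = 0)
    (x : Fin 3 → K) (w : K) (hx : x ≠ 0) (h1 : w ^ 2 + aeval x q * w = aeval x f)
    (h2 : 2 * w + aeval x q ≠ 0) (h3 : ∀ h ∈ H, ∑ l, h l * x l ≠ 0) :
    InGeneralPositionTwo q f {wpoint x w} where
  finite := Set.finite_singleton _
  card := by simp
  mem := by
    intro P hP
    rw [Set.mem_singleton_iff] at hP
    exact ⟨x, w, hx, hP, h1⟩
  curves := by
    intro u v g hexc s t _ hP
    rw [Set.mem_singleton_iff] at hP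
    have hm := mem_wpoint (s • u + t • v) (bq g s t)
    rw [hP] at hm
    obtain ⟨τ, hτ, he⟩ := hm
    have he1 : s • u + t • v = τ • x := congrArg Prod.fst he
    obtain ⟨h, hh, hz⟩ := hH u v g hexc
    have h4 := hz s t
    rw [he1] at h4
    have h5 : τ * ∑ l, h l * x l = 0 := by
      rw [← h4, Finset.mul_sum]
      apply Finset.sum_congr rfl
      intro l _
      simp only [Pi.smul_apply, smul_eq_mul]
      ring
    exact h3 h hh ((mul_eq_zero.mp h5).resolve_left hτ)
  sections := by
    intro x' w' _ hP h hh0 _
    rw [Set.mem_singleton_iff] at hP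
    have hm := mem_wpoint x' w'
    rw [hP] at hm
    obtain ⟨τ, hτ, he⟩ := hm
    have he1 : x' = τ • x := congrArg Prod.fst he
    have he2 : w' = τ ^ 2 * w := congrArg Prod.snd he
    have h4 : aeval x' q = τ ^ 2 * aeval x q := by
      rw [he1]
      exact aeval_smul_homog q hX.homog_q τ x
    have h5 : 2 * w' + aeval x' q ≠ 0 := by
      have : 2 * w' + aeval x' q = τ ^ 2 * (2 * w + aeval x q) := by
        rw [h4, he2]; ring
      rw [this]
      exact mul_ne_zero (pow_ne_zero 2 hτ) h2
    rw [LinearIndependent.pair_iff]
    intro a b hab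
    have e2 := congrArg Prod.snd hab
    simp only [Prod.snd_add, Prod.smul_snd, smul_eq_mul, mul_zero, zero_add, Prod.snd_zero] at e2
    have hb : b = 0 := (mul_eq_zero.mp e2).resolve_right h5
    have e1 := congrArg Prod.fst hab
    rw [hb] at e1
    simp only [zero_smul, add_zero, Prod.smul_fst, Prod.fst_zero] at e1
    exact ⟨(smul_eq_zero.mp e1).resolve_right hh0, hb⟩

theorem general_position_empty {K : Type*} [Field K] (q f : MvPolynomial (Fin 3) K) :
    InGeneralPositionTwo q f ∅ where
  finite := Set.finite_empty
  card := by simp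
  mem := by intro P hP; exact absurd hP (Set.notMem_empty _)
  curves := by intro u v g _ s t _; exact Set.notMem_empty _
  sections := by intro x w _ hP; exact absurd hP (Set.notMem_empty _)

/-- **Degree two.** -/
theorem final_two {k : Type u} [Field k] [Infinite k] (q f : MvPolynomial (Fin 3) k)
    (hX : IsDelPezzoTwo (map (algebraMap k (AlgebraicClosure k)) q)
      (map (algebraMap k (AlgebraicClosure k)) f))
    (hU : IsUnirationalTwo (AlgebraicClosure k) q f)
    (n : ℕ → ℕ) (hn : ∑ i ∈ Finset.Icc 1 8, i * n i ≤ 1) :
    ∃ M : Set (Set (Set ((Fin 3 → AlgebraicClosure k) × AlgebraicClosure k))), M.Finite ∧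
      (∀ O ∈ M, IsSepClosedPointTwo (AlgebraicClosure k) q f O ∧ O.ncard ∈ Finset.Icc 1 8) ∧
      (∀ i ∈ Finset.Icc 1 8, {O ∈ M | O.ncard = i}.ncard = n i) ∧
      InGeneralPositionTwo (map (algebraMap k (AlgebraicClosure k)) q)
        (map (algebraMap k (AlgebraicClosure k)) f) (⋃₀ M) := by
  classical
  have hn' : ∀ i ∈ Finset.Icc 1 8, i * n i ≤ 1 := fun i hi =>
    (Finset.single_le_sum (f := fun i => i * n i) (fun _ _ => Nat.zero_le _) hi).trans hn
  have hbig : ∀ i ∈ Finset.Icc 1 8, i ≠ 1 → n i = 0 := by
    intro i hi h1
    have h2 := hn' i hi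
    have h3 : 2 ≤ i := by
      have := (Finset.mem_Icc.mp hi).1
      omega
    by_contra h0
    have : 2 * 1 ≤ i * n i := Nat.mul_le_mul h3 (Nat.one_le_iff_ne_zero.mpr h0)
    omega
  have h1le : n 1 ≤ 1 := by
    have := hn' 1 (by simp)
    omega
  rcases Nat.eq_zero_or_pos (n 1) with h0 | h0
  · refine ⟨∅, Set.finite_empty, by simp, ?_, ?_⟩
    · intro i hi
      have hni : n i = 0 := by
        by_cases h : i = 1
        · rw [h]; exact h0
        · exact hbig i hi h
      rw [hni]
      simp
    · rw [Set.sUnion_empty]
      exact general_position_empty _ _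
  · have hn1 : n 1 = 1 := by omega
    obtain ⟨H, hHf, hH0, hH⟩ := exceptional_lines hX
    obtain ⟨x, w, e1, e2, e3⟩ := exists_point hX hU H hHf hH0
    let K := AlgebraicClosure k
    let x' : Fin 3 → K := fun i => algebraMap k K (x i)
    let w' : K := algebraMap k K w
    have hev : ∀ p : MvPolynomial (Fin 3) k, aeval x' p = algebraMap k K (aeval x p) := by
      intro p
      exact aeval_algebraMap_apply K x p
    have hx0 : x' ≠ 0 := by
      intro hx
      have hq0 : aeval x' (map (algebraMap k K) q) = 0 := by
        rw [hx]; exact aeval_zero_of_homog two_ne_zero _ hX.homog_q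
      have hf0 : aeval x' (map (algebraMap k K) f) = 0 := by
        rw [hx]; exact aeval_zero_of_homog (by norm_num) _ hX.homog_f
      rw [aeval_map_algebraMap, hev] at hq0 hf0
      have hq1 : aeval x q = 0 := (algebraMap k K).injective (by rw [hq0, map_zero])
      have hf1 : aeval x f = 0 := (algebraMap k K).injective (by rw [hf0, map_zero])
      rw [hq1, hf1, zero_mul, add_zero] at e1
      have hw : w = 0 := by simpa using e1
      apply e2
      rw [hw, hq1]
      ring
    have h1 : w' ^ 2 + aeval x' q * w' = aeval x' f := by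
      rw [hev, hev]
      simp only [w']
      rw [← map_pow, ← map_mul, ← map_add, e1]
    let O : Set (Set ((Fin 3 → K) × K)) := {wpoint x' w'}
    have hO : IsSepClosedPointTwo K q f O := by
      refine ⟨x', w', hx0, fun i => isSeparable_algebraMap _, isSeparable_algebraMap _, h1, ?_⟩
      ext P
      simp only [O, Set.mem_singleton_iff, Set.mem_setOf_eq]
      have hτ : ∀ τ : K ≃ₐ[k] K, wpoint (fun i => τ (x' i)) (τ w') = wpoint x' w' := by
        intro τ
        congr 1
        · funext i
          simp [x']
        · simp [w']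
      constructor
      · intro h
        exact ⟨AlgEquiv.refl, by rw [hτ]; exact h⟩
      · rintro ⟨τ, rfl⟩
        exact hτ τ
    have hcard : O.ncard = 1 := by simp [O]
    refine ⟨{O}, Set.finite_singleton _, ?_, ?_, ?_⟩
    · intro O' hO'
      rw [Set.mem_singleton_iff] at hO'
      subst hO'
      exact ⟨hO, by rw [hcard]; simp⟩
    · intro i hi
      by_cases h : i = 1
      · subst h
        have : {O' ∈ ({O} : Set (Set (Set ((Fin 3 → K) × K)))) | O'.ncard = 1} = {O} := by
          ext O'
          simp only [Set.mem_setOf_eq, Set.mem_singleton_iff]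
          constructor
          · exact fun h => h.1
          · intro h
            exact ⟨h, by rw [h]; exact hcard⟩
        rw [this, hn1]
        simp
      · have : {O' ∈ ({O} : Set (Set (Set ((Fin 3 → K) × K)))) | O'.ncard = i} = ∅ := by
          ext O'
          simp only [Set.mem_setOf_eq, Set.mem_singleton_iff, Set.mem_empty_iff_false, iff_false,
            not_and]
          intro h2 h3
          rw [h2, hcard] at h3
          exact h h3.symm
        rw [this, hbig i hi h]
        simp
    · rw [Set.sUnion_singleton]
      apply general_position hX H hH x' w' hx0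
      · rw [aeval_map_algebraMap, aeval_map_algebraMap]
        exact h1
      · rw [aeval_map_algebraMap, hev]
        simp only [w']
        rw [← map_ofNat (algebraMap k K) 2, ← map_mul, ← map_add]
        exact fun h => e2 ((algebraMap k K).injective (by rw [h, map_zero]))
      · exact e3

end Pool.Agent.Helper11K9.DPT
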