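import Pool.Agent.R865.DPFinal

/-!
In characteristic two the inseparable double planes `w ^ 2 = f`, `f` a quartic form, are singular.
-/

namespace Pool.Agent.Helper11K9.DPT

open MvPolynomial Pool.Agent.R865.DP

variable {K : Type*} [Field K]

/-- Frobenius semilinear maps of a three dimensional space have eigenvectors (characteristic
two). -/
theorem exists_eigenvector [IsAlgClosed K] (h2 : (2 : K) = 0) (φ : (Fin 3 → K) → (Fin 3 → K))
    (hadd : ∀ x y, φ (x + y) = φ x + φ y) (hsmul : ∀ (c : K) x, φ (c • x) = c ^ 2 • φ x) :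
    ∃ (x : Fin 3 → K) (lam : K), x ≠ 0 ∧ φ x = lam • x := by
  have hsq : ∀ a b : K, a ^ 2 = b ^ 2 → a = b := by
    intro a b hab
    have h3 : (a - b) ^ 2 = 0 := by linear_combination hab + (b ^ 2 - a * b) * h2
    exact sub_eq_zero.mp (pow_eq_zero_iff (two_ne_zero) |>.mp h3)
  let v : Fin 3 → K := fun _ => 1
  have hv : v ≠ 0 := fun h => one_ne_zero (congrFun h 0)
  by_cases h1 : LinearIndependent K ![v, φ v]
  · by_cases h3 : LinearIndependent K ![v, φ v, φ (φ v)]
    · have hs : Submodule.span K (Set.range ![v, φ v, φ (φ v)]) = ⊤ :=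
        h3.span_eq_top_of_card_eq_finrank' (by simp)
      have hy : φ (φ (φ v)) ∈ Submodule.span K (Set.range ![v, φ v, φ (φ v)]) := by
        rw [hs]; trivial
      rw [Submodule.mem_span_range_iff_exists_fun] at hy
      obtain ⟨c, hc⟩ := hy
      rw [Fin.sum_univ_three] at hc
      simp only [Matrix.cons_val_zero, Matrix.cons_val_one, Matrix.cons_val] at hc
      -- the coefficients
      obtain ⟨y1, hy1⟩ := IsAlgClosed.exists_root
        ((Polynomial.X ^ 3 + Polynomial.C (c 2) * Polynomial.X - Polynomial.C (c 1)) *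
          (Polynomial.X ^ 2 + Polynomial.C (c 2)) ^ 2 - Polynomial.C ((c 0) ^ 2)) (by
          have hm1 : (Polynomial.X ^ 3 + Polynomial.C (c 2) * Polynomial.X -
              Polynomial.C (c 1)).Monic := by monicity!
          have hm2 : ((Polynomial.X ^ 2 + Polynomial.C (c 2)) ^ 2).Monic := by
            apply Polynomial.Monic.pow
            monicity!
          have hd1 : (Polynomial.X ^ 3 + Polynomial.C (c 2) * Polynomial.X -
              Polynomial.C (c 1)).natDegree = 3 := by compute_degree!
          have hd2 : ((Polynomial.X ^ 2 + Polynomial.C (c 2)) ^ 2).natDegree = 4 := by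
            compute_degree!
          have hm := hm1.mul hm2
          have hd : ((Polynomial.X ^ 3 + Polynomial.C (c 2) * Polynomial.X -
              Polynomial.C (c 1)) * (Polynomial.X ^ 2 + Polynomial.C (c 2)) ^ 2).natDegree = 7 := by
            rw [hm1.natDegree_mul hm2, hd1, hd2]
          rw [Polynomial.degree_sub_C (by
            rw [Polynomial.degree_eq_natDegree hm.ne_zero, hd]; norm_num),
            Polynomial.degree_eq_natDegree hm.ne_zero, hd]
          norm_num)
      simp only [Polynomial.IsRoot.def, Polynomial.eval_sub, Polynomial.eval_mul,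
        Polynomial.eval_add, Polynomial.eval_pow, Polynomial.eval_X, Polynomial.eval_C] at hy1
      obtain ⟨y0, hy0⟩ := IsAlgClosed.exists_pow_nat_eq (y1 ^ 3 + c 2 * y1 - c 1)
        (n := 2) (by norm_num)
      have hy00 : y0 * (y1 ^ 2 + c 2) = c 0 := by
        apply hsq
        rw [mul_pow, hy0]
        linear_combination hy1
      refine ⟨y0 • v + y1 • φ v + φ (φ v), y1 ^ 2 + c 2, ?_, ?_⟩
      · intro h0
        rw [Fintype.linearIndependent_iff] at h3
        have := h3 ![y0, y1, 1] (by
          rw [Fin.sum_univ_three]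
          simpa using h0) 2
        simp at this
      · rw [hadd, hadd, hsmul, hsmul, ← hc, hy0, ← hy00]
        have e : y1 ^ 3 + c 2 * y1 - c 1 + c 1 = (y1 ^ 2 + c 2) * y1 := by ring
        have e2 : (y1 ^ 3 + c 2 * y1 - c 1) • φ v + y1 ^ 2 • φ (φ v) +
            ((y0 * (y1 ^ 2 + c 2)) • v + c 1 • φ v + c 2 • φ (φ v)) =
            (y0 * (y1 ^ 2 + c 2)) • v + (y1 ^ 3 + c 2 * y1 - c 1 + c 1) • φ v +
            (y1 ^ 2 + c 2) • φ (φ v) := by module
        rw [e2, e]
        module
    · -- a relation `φ (φ v) = a v + b φ v`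
      obtain ⟨a, b, hab⟩ : ∃ a b : K, φ (φ v) = a • v + b • φ v := by
        by_contra hcon
        push Not at hcon
        apply h3
        rw [LinearIndependent.pair_iff] at h1
        rw [Fintype.linearIndependent_iff]
        intro g hg
        rw [Fin.sum_univ_three] at hg
        simp only [Matrix.cons_val_zero, Matrix.cons_val_one, Matrix.cons_val] at hg
        have hg2 : g 2 = 0 := by
          by_contra hne
          apply hcon (-(g 0) / g 2) (-(g 1) / g 2)
          have : φ (φ v) = (g 2)⁻¹ • (g 2 • φ (φ v)) := by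
            rw [smul_smul, inv_mul_cancel₀ hne, one_smul]
          rw [this]
          have h5 : g 2 • φ (φ v) = -(g 0 • v + g 1 • φ v) := by
            rw [eq_neg_iff_add_eq_zero, add_comm]
            exact hg
          rw [h5]
          module
        rw [hg2, zero_smul, add_zero] at hg
        obtain ⟨e0, e1⟩ := h1 _ _ hg
        intro i
        fin_cases i
        · exact e0
        · exact e1
        · exact hg2
      obtain ⟨y, hy⟩ := IsAlgClosed.exists_root
        (Polynomial.X ^ 3 + Polynomial.C b * Polynomial.X - Polynomial.C a) (by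
          have hm1 : (Polynomial.X ^ 3 + Polynomial.C b * Polynomial.X -
              Polynomial.C a).Monic := by monicity!
          have hd1 : (Polynomial.X ^ 3 + Polynomial.C b * Polynomial.X -
              Polynomial.C a).natDegree = 3 := by compute_degree!
          rw [Polynomial.degree_eq_natDegree hm1.ne_zero, hd1]
          norm_num)
      simp only [Polynomial.IsRoot.def, Polynomial.eval_sub, Polynomial.eval_mul,
        Polynomial.eval_add, Polynomial.eval_pow, Polynomial.eval_X, Polynomial.eval_C] at hy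
      refine ⟨y • v + φ v, y ^ 2 + b, ?_, ?_⟩
      · intro h0
        rw [LinearIndependent.pair_iff] at h1
        have := (h1 y 1 (by simpa using h0)).2
        exact one_ne_zero this
      · rw [hadd, hsmul, hab]
        have e : a = (y ^ 2 + b) * y := by linear_combination -hy
        rw [e]
        module
  · rw [LinearIndependent.pair_iff] at h1
    push Not at h1
    obtain ⟨a, b, hab, hne⟩ := h1
    have hb : b ≠ 0 := by
      intro hb
      rw [hb, zero_smul, add_zero] at hab
      have ha := (smul_eq_zero.mp hab).resolve_right hv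
      exact hne ha hb
    refine ⟨v, -a / b, hv, ?_⟩
    have h5 : b • φ v = -(a • v) := by
      rw [eq_neg_iff_add_eq_zero, add_comm]; exact hab
    have : φ v = b⁻¹ • (b • φ v) := by rw [smul_smul, inv_mul_cancel₀ hb, one_smul]
    rw [this, h5]
    module

/-- the gradient of `f` is the vector product of `x` with a Frobenius semilinear function -/
def GradForm (f : MvPolynomial (Fin 3) K) : Prop :=
  ∃ m : Fin 3 → Fin 3 → K, ∀ x : Fin 3 → K,
    aeval x (pderiv 0 f) = x 1 * (∑ j, m 2 j * x j ^ 2) + x 2 * (∑ j, m 1 j * x j ^ 2) ∧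
    aeval x (pderiv 1 f) = x 0 * (∑ j, m 2 j * x j ^ 2) + x 2 * (∑ j, m 0 j * x j ^ 2) ∧
    aeval x (pderiv 2 f) = x 0 * (∑ j, m 1 j * x j ^ 2) + x 1 * (∑ j, m 0 j * x j ^ 2)

theorem gradForm_add {f g : MvPolynomial (Fin 3) K} (hf : GradForm f) (hg : GradForm g) :
    GradForm (f + g) := by
  obtain ⟨m, hm⟩ := hf
  obtain ⟨n, hn⟩ := hg
  refine ⟨fun i j => m i j + n i j, fun x => ?_⟩
  obtain ⟨a1, a2, a3⟩ := hm x
  obtain ⟨b1, b2, b3⟩ := hn x
  simp only [Fin.sum_univ_three] at *
  refine ⟨?_, ?_, ?_⟩
  · rw [map_add, map_add, a1, b1]; ring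
  · rw [map_add, map_add, a2, b2]; ring
  · rw [map_add, map_add, a3, b3]; ring

theorem gradForm_zero : GradForm (0 : MvPolynomial (Fin 3) K) :=
  ⟨fun _ _ => 0, fun x => by simp⟩

theorem gradForm_mono (h2 : (2 : K) = 0) (r : K) (a b c : ℕ) (h : a + b + c = 4) :
    GradForm (C r * (X 0 ^ a * X 1 ^ b * X 2 ^ c)) := by
  have h3 : (3 : K) = 1 := by linear_combination h2
  have h4 : (4 : K) = 0 := by linear_combination 2 * h2
  refine ⟨![![if (a, b, c) = (2, 1, 1) then r else 0, if (a, b, c) = (0, 3, 1) then r else 0,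
      if (a, b, c) = (0, 1, 3) then r else 0],
    ![if (a, b, c) = (3, 0, 1) then r else 0, if (a, b, c) = (1, 2, 1) then r else 0,
      if (a, b, c) = (1, 0, 3) then r else 0],
    ![if (a, b, c) = (3, 1, 0) then r else 0, if (a, b, c) = (1, 3, 0) then r else 0,
      if (a, b, c) = (1, 1, 2) then r else 0]], fun x => ?_⟩
  have hab : a + b ≤ 4 := by omega
  have hc : c = 4 - a - b := by omega
  clear h
  subst hc
  have ha : a ≤ 4 := by omega
  have hb : b ≤ 4 := by omega
  interval_cases a <;> interval_cases b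
  all_goals first
    | (exfalso; omega)
    | (simp [Fin.sum_univ_three, Derivation.leibniz, Derivation.leibniz_pow, h2, h3, h4]; done)
    | (simp [Fin.sum_univ_three, Derivation.leibniz, Derivation.leibniz_pow, h2, h3, h4]
       refine ⟨?_, ?_⟩ <;> ring)
    | (simp [Fin.sum_univ_three, Derivation.leibniz, Derivation.leibniz_pow, h2, h3, h4]; ring)

theorem gradForm_of_homog (h2 : (2 : K) = 0) (f : MvPolynomial (Fin 3) K)
    (hf : f.IsHomogeneous 4) : GradForm f := by
  classical
  rw [f.as_sum]
  apply Finset.sum_induction _ GradForm (fun _ _ => gradForm_add) gradForm_zero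
  intro d hd
  have hdeg : ∑ i, d i = 4 := by
    have h1 := hf (mem_support_iff.mp hd)
    have h3 : (Finsupp.weight 1) d = 4 := h1
    rw [← h3, Finsupp.weight_apply, Finsupp.sum_fintype]
    · simp
    · simp
  rw [Fin.sum_univ_three] at hdeg
  have hm : monomial d (coeff d f) =
      C (coeff d f) * (X 0 ^ d 0 * X 1 ^ d 1 * X 2 ^ d 2) := by
    rw [monomial_eq, Finsupp.prod_fintype _ _ (by simp), Fin.prod_univ_three]
  rw [hm]
  exact gradForm_mono h2 _ _ _ _ hdeg

/-- A quartic form in characteristic two has a critical point. -/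
theorem exists_critical [IsAlgClosed K] (h2 : (2 : K) = 0) (f : MvPolynomial (Fin 3) K)
    (hf : f.IsHomogeneous 4) : ∃ x : Fin 3 → K, x ≠ 0 ∧ ∀ l, aeval x (pderiv l f) = 0 := by
  obtain ⟨m, hm⟩ := gradForm_of_homog h2 f hf
  obtain ⟨x, lam, hx, hlam⟩ := exists_eigenvector h2 (fun x i => ∑ j, m i j * x j ^ 2) (by
    intro x y
    funext i
    simp only [Fin.sum_univ_three, Pi.add_apply]
    linear_combination (m i 0 * x 0 * y 0 + m i 1 * x 1 * y 1 + m i 2 * x 2 * y 2) * h2) (by
    intro c x
    funext i
    simp only [Fin.sum_univ_three, Pi.smul_apply, smul_eq_mul]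
    ring)
  have hl : ∀ i, ∑ j, m i j * x j ^ 2 = lam * x i := fun i => congrFun hlam i
  obtain ⟨e0, e1, e2⟩ := hm x
  rw [hl, hl] at e0 e1 e2
  refine ⟨x, hx, ?_⟩
  intro l
  fin_cases l
  · change aeval x (pderiv 0 f) = 0
    rw [e0]; linear_combination lam * x 1 * x 2 * h2
  · change aeval x (pderiv 1 f) = 0
    rw [e1]; linear_combination lam * x 0 * x 2 * h2
  · change aeval x (pderiv 2 f) = 0
    rw [e2]; linear_combination lam * x 0 * x 1 * h2

end Pool.Agent.Helper11K9.DPT
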