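import Pool.Agent.Helper11K9.DPT.Cur
import Pool.Agent.Helper11K9.DPT.Sep

/-!
Points in general position on unirational del Pezzo surfaces of degree two.
-/

namespace Pool.Agent.Helper11K9.DPT

open MvPolynomial Pool.Agent.R865.DP

/-- a form in `x` is a weighted form -/
theorem rename_weighted {K : Type*} [Field K] {n : ℕ} (p : MvPolynomial (Fin 3) K)
    (hp : p.IsHomogeneous n) :
    (rename Fin.castSucc p : MvPolynomial (Fin 4) K).IsWeightedHomogeneous ![1, 1, 1, 2] n := by
  intro d hd
  obtain ⟨u, rfl, hu⟩ := coeff_rename_ne_zero _ _ _ hd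
  have h1 := hp hu
  have h2 : (Finsupp.weight 1) u = n := h1
  rw [Finsupp.weight_apply] at h2 ⊢
  rw [Finsupp.sum_mapDomain_index (by simp) (by intro i a b; simp [add_mul])]
  rw [← h2]
  apply Finsupp.sum_congr
  intro i _
  fin_cases i <;> simp

theorem aeval_rename_vec {K : Type*} [Field K] (x : Fin 3 → K) (w : K)
    (p : MvPolynomial (Fin 3) K) :
    aeval ![x 0, x 1, x 2, w] (rename Fin.castSucc p : MvPolynomial (Fin 4) K) = aeval x p := by
  rw [aeval_rename]
  congr 2
  funext i
  fin_cases i <;> rfl

theorem aeval_zero_of_homog {K : Type*} [Field K] {n : ℕ} (hn : n ≠ 0)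
    (p : MvPolynomial (Fin 3) K) (hp : p.IsHomogeneous n) : aeval (0 : Fin 3 → K) p = 0 := by
  have h := aeval_smul_homog p hp (0 : K) (0 : Fin 3 → K)
  rw [zero_pow hn, zero_mul] at h
  rw [← h]
  congr 2
  funext i
  simp

/-- every vector lifts to the double plane -/
theorem exists_lift {K : Type*} [Field K] [IsAlgClosed K] (a b : K) : ∃ w : K, w ^ 2 + a * w = b := by
  obtain ⟨x, hx⟩ := IsAlgClosed.exists_root
    (Polynomial.C 1 * Polynomial.X ^ 2 + Polynomial.C a * Polynomial.X + Polynomial.C (-b))
    (by rw [Polynomial.degree_quadratic one_ne_zero]; decide)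
  refine ⟨x, ?_⟩
  simp [Polynomial.IsRoot.def] at hx
  linear_combination hx

/-- The ramification curve is not all of `X`. -/
theorem ram_ne {K : Type*} [Field K] [IsAlgClosed K] {q f : MvPolynomial (Fin 3) K}
    (hX : IsDelPezzoTwo q f)
    (h : ∀ (x : Fin 3 → K) (w : K), w ^ 2 + aeval x q * w = aeval x f → 2 * w + aeval x q = 0) :
    False := by
  by_cases h2 : (2 : K) = 0
  · have hq : q = 0 := by
      apply MvPolynomial.funext
      intro x
      obtain ⟨w, hw⟩ := exists_lift (aeval x q) (aeval x f)
      have := h x w hw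
      rw [h2, zero_mul, zero_add] at this
      rw [map_zero]
      exact this
    obtain ⟨x, hx, hcrit⟩ := exists_critical h2 f hX.homog_f
    obtain ⟨w, hw⟩ := exists_lift (aeval x q) (aeval x f)
    rcases hX.smooth x w hx hw with h4 | ⟨l, h4⟩
    · exact h4 (h x w hw)
    · apply h4
      rw [hcrit l, hq]
      simp
  · have hid : C (4 : K) * f + q ^ 2 = 0 := by
      apply MvPolynomial.funext
      intro x
      obtain ⟨w, hw⟩ := exists_lift (aeval x q) (aeval x f)
      have h3 := h x w hw
      rw [map_zero, map_add, map_mul, map_pow, eval_C]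
      change 4 * aeval x f + (aeval x q) ^ 2 = 0
      linear_combination -4 * hw + (2 * w + aeval x q) * h3
    let x : Fin 3 → K := fun _ => 1
    have hx : x ≠ 0 := fun h0 => one_ne_zero (congrFun h0 0)
    obtain ⟨w, hw⟩ := exists_lift (aeval x q) (aeval x f)
    have h3 := h x w hw
    rcases hX.smooth x w hx hw with h4 | ⟨l, h4⟩
    · exact h4 h3
    · apply h4
      have h5 := congrArg (fun p => aeval x (pderiv l p)) hid
      simp only [map_add, Derivation.leibniz, pderiv_C, smul_zero, add_zero, smul_eq_mul, map_mul,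
        aeval_C, Algebra.algebraMap_self, RingHom.id_apply, map_zero, pow_two] at h5
      have h6 : (4 : K) ≠ 0 := by
        have : (4 : K) = 2 * 2 := by norm_num
        rw [this]
        exact mul_ne_zero h2 h2
      have h7 : 4 * (aeval x (pderiv l q) * w - aeval x (pderiv l f)) = 0 := by
        linear_combination 2 * aeval x (pderiv l q) * h3 - h5
      exact (mul_eq_zero.mp h7).resolve_left h6

variable {k : Type*} [Field k] [Infinite k] {K : Type*} [Field K] [IsAlgClosed K] [Algebra k K]

theorem exists_point {q f : MvPolynomial (Fin 3) k}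
    (hX : IsDelPezzoTwo (map (algebraMap k K) q) (map (algebraMap k K) f))
    (hU : IsUnirationalTwo K q f) (H : Set (Fin 3 → K)) (hH : H.Finite) (hH0 : ∀ h ∈ H, h ≠ 0) :
    ∃ (x : Fin 3 → k) (w : k), w ^ 2 + aeval x q * w = aeval x f ∧ 2 * w + aeval x q ≠ 0 ∧
      ∀ h ∈ H, ∑ l, h l * algebraMap k K (x l) ≠ 0 := by
  classical
  obtain ⟨r, φ, ψ, hφ, hψ, heq, hdom⟩ := hU
  have hInfK : Infinite K := inferInstance
  -- the polynomials which have to be avoided
  let Ph : (Fin 3 → K) → MvPolynomial (Fin 3) K := fun h =>
    ∑ l, C (h l) * map (algebraMap k K) (φ l)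
  let Pw : MvPolynomial (Fin 3) K :=
    C 2 * map (algebraMap k K) ψ + map (algebraMap k K) (aeval φ q)
  have hPh : ∀ h : Fin 3 → K, h ≠ 0 → Ph h ≠ 0 := by
    intro h hne hzero
    obtain ⟨l, hl⟩ := Function.ne_iff.mp hne
    let p : MvPolynomial (Fin 3) K := ∑ l, C (h l) * X l
    have hp : p.IsHomogeneous 1 := by
      apply IsHomogeneous.sum
      intro l _
      have := (isHomogeneous_C (Fin 3) (h l)).mul (isHomogeneous_X K l)
      simpa using this
    obtain ⟨w, hw⟩ := exists_lift (aeval (Pi.single l 1 : Fin 3 → K) q)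
      (aeval (Pi.single l 1 : Fin 3 → K) f)
    have h1 := hdom 1 (rename Fin.castSucc p) (rename_weighted p hp) (by
      intro y
      have e := aeval_rename_vec (fun i => aeval y (φ i)) (aeval y ψ) p
      refine e.trans ?_
      have h2 := congrArg (aeval y) hzero
      simp only [Ph, map_sum, map_mul, aeval_C, Algebra.algebraMap_self, RingHom.id_apply,
        aeval_map_algebraMap, map_zero] at h2
      simpa [p] using h2) (Pi.single l 1) w hw
    rw [aeval_rename_vec] at h1
    apply hl
    have h3 : aeval (Pi.single l 1 : Fin 3 → K) p = h l := by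
      simp only [p, map_sum, map_mul, aeval_C, aeval_X, Algebra.algebraMap_self, RingHom.id_apply]
      rw [Finset.sum_eq_single l]
      · simp
      · intro b _ hb
        simp [Pi.single_apply, hb]
      · simp
    rw [h3] at h1
    exact h1
  have hPw : Pw ≠ 0 := by
    intro hzero
    apply ram_ne hX
    intro x w hw
    rw [aeval_map_algebraMap, aeval_map_algebraMap] at hw
    rw [aeval_map_algebraMap]
    let G : MvPolynomial (Fin 4) K := C 2 * X 3 + rename Fin.castSucc (map (algebraMap k K) q)
    have hG : G.IsWeightedHomogeneous ![1, 1, 1, 2] 2 := by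
      apply IsWeightedHomogeneous.add
      · have := (isWeightedHomogeneous_C (![1, 1, 1, 2] : Fin 4 → ℕ) (2 : K)).mul
          (isWeightedHomogeneous_X K (![1, 1, 1, 2] : Fin 4 → ℕ) 3)
        simpa using this
      · exact rename_weighted _ hX.homog_q
    have h1 := hdom 2 G hG (by
      intro y
      simp only [G, map_add, map_mul, aeval_C, aeval_X]
      have e := aeval_rename_vec (fun i => aeval y (φ i)) (aeval y ψ) (map (algebraMap k K) q)
      have e2 : aeval ![aeval y (φ 0), aeval y (φ 1), aeval y (φ 2), aeval y ψ]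
          (rename Fin.castSucc (map (algebraMap k K) q) : MvPolynomial (Fin 4) K) =
          aeval (fun i => aeval y (φ i)) (map (algebraMap k K) q) := e
      rw [e2, aeval_map_algebraMap]
      have h2 := congrArg (aeval y) hzero
      simp only [Pw, map_add, map_mul, aeval_C, Algebra.algebraMap_self, RingHom.id_apply,
        aeval_map_algebraMap, map_zero] at h2
      have h3 : aeval y (aeval φ q) = aeval (fun i => aeval y (φ i)) q := by
        rw [← AlgHom.comp_apply, comp_aeval]
      rw [h3] at h2
      simpa using h2) x w hw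
    simp only [G, map_add, map_mul, aeval_C, aeval_X] at h1
    rw [aeval_rename_vec, aeval_map_algebraMap] at h1
    simpa using h1
  -- a point of `k ^ 3` avoiding all of them
  have hT : Pw * ∏ h ∈ hH.toFinset, Ph h ≠ 0 := by
    apply mul_ne_zero hPw
    rw [Finset.prod_ne_zero_iff]
    intro h hh
    exact hPh h (hH0 h (hH.mem_toFinset.mp hh))
  obtain ⟨y, hy⟩ : ∃ y : Fin 3 → k,
      eval (fun i => algebraMap k K (y i)) (Pw * ∏ h ∈ hH.toFinset, Ph h) ≠ 0 := by
    by_contra hcon
    push Not at hcon
    apply hT
    apply MvPolynomial.funext_set (fun _ => Set.range (algebraMap k K))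
      (fun _ => Set.infinite_range_of_injective (algebraMap k K).injective)
    intro z hz
    simp only [Set.mem_pi, Set.mem_univ, Set.mem_range, forall_const] at hz
    choose y hy using hz
    have hzy : z = fun i => algebraMap k K (y i) := funext fun i => (hy i).symm
    rw [hzy, hcon y, map_zero]
  rw [map_mul, map_prod] at hy
  have hy1 := left_ne_zero_of_mul hy
  have hy2 := right_ne_zero_of_mul hy
  rw [Finset.prod_ne_zero_iff] at hy2
  have hev : ∀ p : MvPolynomial (Fin 3) k, eval (fun i => algebraMap k K (y i))
      (map (algebraMap k K) p) = algebraMap k K (aeval y p) := by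
    intro p
    change aeval (fun i => algebraMap k K (y i)) (map (algebraMap k K) p) = _
    rw [aeval_map_algebraMap]
    exact aeval_algebraMap_apply K y p
  have hcomp : ∀ p : MvPolynomial (Fin 3) k, aeval y (aeval φ p) =
      aeval (fun i => aeval y (φ i)) p := by
    intro p
    rw [← AlgHom.comp_apply, comp_aeval]
  refine ⟨fun i => aeval y (φ i), aeval y ψ, ?_, ?_, ?_⟩
  · have := congrArg (aeval y) heq
    rw [map_add, map_mul, map_pow, hcomp, hcomp] at this
    exact this
  · intro h0
    apply hy1
    simp only [Pw]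
    rw [map_add, map_mul, eval_C, hev, hev, hcomp, ← map_ofNat (algebraMap k K) 2, ← map_mul,
      ← map_add, h0, map_zero]
  · intro h hh h0
    apply hy2 h (hH.mem_toFinset.mpr hh)
    simp only [Ph]
    rw [map_sum, ← h0]
    apply Finset.sum_congr rfl
    intro l _
    rw [map_mul, eval_C, hev]

end Pool.Agent.Helper11K9.DPT
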