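import Pool.Agent.R865.DPFinal
import Pool.Agent.Helper11K9.DPT.Defs

/-!
Exceptional curves on smooth double planes of degree two: no first order deformations, finiteness.
-/

namespace Pool.Agent.Helper11K9.DPT

open MvPolynomial Pool.Agent.R865.DP

variable {K : Type*} [Field K]

theorem aeval_dual_vec {σ : Type*} [Fintype σ] (D : σ → DualNumber K) (p : MvPolynomial σ K) :
    aeval D p = (TrivSqZeroExt.inl (aeval (fun j => (D j).fst) p) +
      TrivSqZeroExt.inr (∑ j, aeval (fun j => (D j).fst) (pderiv j p) * (D j).snd) :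
        DualNumber K) := by
  have h := aeval_dual (fun j => (D j).fst) (fun j => (D j).snd) p
  have h2 : (fun j => (TrivSqZeroExt.inl (D j).fst + TrivSqZeroExt.inr (D j).snd :
      DualNumber K)) = D := by
    funext j
    exact TrivSqZeroExt.inl_fst_add_inr_snd_eq (D j)
  rw [h2] at h
  exact h

/-- Evaluation of the equation of the surface over the dual numbers. -/
theorem dual_eq (q f : MvPolynomial (Fin 3) K) (x x' : Fin 3 → K) (g g' : K)
    (X : Fin 3 → DualNumber K) (G : DualNumber K) (hX : ∀ l, (X l).fst = x l)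
    (hX' : ∀ l, (X l).snd = x' l) (hG : G.fst = g) (hG' : G.snd = g')
    (h : G ^ 2 + aeval X q * G - aeval X f = 0) :
    g ^ 2 + aeval x q * g = aeval x f ∧
    dd q x x' * g - dd f x x' + (2 * g + aeval x q) * g' = 0 := by
  have e1 : (fun j => (X j).fst) = x := funext hX
  rw [aeval_dual_vec X q, aeval_dual_vec X f, e1] at h
  have hd : ∀ p : MvPolynomial (Fin 3) K,
      ∑ j, aeval x (pderiv j p) * (X j).snd = dd p x x' := by
    intro p
    unfold dd
    simp only [hX']
  rw [hd, hd] at h
  have h1 := congrArg TrivSqZeroExt.fst h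
  have h2 := congrArg TrivSqZeroExt.snd h
  simp only [pow_two, TrivSqZeroExt.fst_sub, TrivSqZeroExt.fst_add, TrivSqZeroExt.fst_mul,
    TrivSqZeroExt.fst_inl, TrivSqZeroExt.fst_inr, TrivSqZeroExt.snd_sub, TrivSqZeroExt.snd_add,
    TrivSqZeroExt.snd_mul, TrivSqZeroExt.snd_inl, TrivSqZeroExt.snd_inr, hG, hG',
    TrivSqZeroExt.fst_zero, TrivSqZeroExt.snd_zero, smul_eq_mul, add_zero, zero_add,
    MulOpposite.smul_eq_mul_unop, MulOpposite.unop_op] at h1 h2
  constructor
  · linear_combination h1
  · linear_combination h2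

/-- Derivative of the equation along an exceptional curve. -/
theorem dual_line [Infinite K] (q f : MvPolynomial (Fin 3) K) (u w g : Fin 3 → K)
    (h : ∀ s t : K, bq g s t ^ 2 + aeval (s • u + t • w) q * bq g s t = aeval (s • u + t • w) f)
    (s t s' t' : K) :
    dd q (s • u + t • w) (s' • u + t' • w) * bq g s t - dd f (s • u + t • w) (s' • u + t' • w) +
      (2 * bq g s t + aeval (s • u + t • w) q) *
        ((2 * s * g 0 + t * g 1) * s' + (s * g 1 + 2 * t * g 2) * t') = 0 := by
  let L : Fin 3 → MvPolynomial (Fin 2) K := fun l => X 0 * C (u l) + X 1 * C (w l)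
  let G : MvPolynomial (Fin 2) K := X 0 ^ 2 * C (g 0) + X 0 * X 1 * C (g 1) + X 1 ^ 2 * C (g 2)
  have hP : G ^ 2 + aeval L q * G - aeval L f = 0 := by
    apply MvPolynomial.funext
    intro y
    have hL : ∀ p : MvPolynomial (Fin 3) K, eval y (aeval L p) = aeval (y 0 • u + y 1 • w) p := by
      intro p
      have : (eval y) (aeval L p) = ((aeval y : MvPolynomial (Fin 2) K →ₐ[K] K).comp (aeval L)) p := by
        simp [aeval_eq_eval]
      rw [this, comp_aeval]
      congr 2
      funext l
      simp [L, smul_eq_mul]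
    have hG : eval y G = bq g (y 0) (y 1) := by
      simp [G, bq]
    rw [map_sub, map_add, map_mul, map_pow, hL, hL, hG, map_zero]
    exact sub_eq_zero.mpr (h _ _)
  let D : Fin 2 → DualNumber K := ![TrivSqZeroExt.inl s + TrivSqZeroExt.inr s',
    TrivSqZeroExt.inl t + TrivSqZeroExt.inr t']
  have h0 := congrArg (aeval D) hP
  rw [map_sub, map_add, map_mul, map_pow, map_zero] at h0
  have hc : ∀ p : MvPolynomial (Fin 3) K, aeval D (aeval L p) = aeval (fun l => aeval D (L l)) p := by
    intro p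
    rw [← AlgHom.comp_apply, comp_aeval]
  rw [hc, hc] at h0
  refine (dual_eq q f (s • u + t • w) (s' • u + t' • w) (bq g s t)
    ((2 * s * g 0 + t * g 1) * s' + (s * g 1 + 2 * t * g 2) * t') (fun l => aeval D (L l))
    (aeval D G) ?_ ?_ ?_ ?_ h0).2
  · intro l
    simp [D, L, ← MvPolynomial.algebraMap_eq, TrivSqZeroExt.algebraMap_eq_inl]
  · intro l
    simp [D, L, ← MvPolynomial.algebraMap_eq, TrivSqZeroExt.algebraMap_eq_inl]
  · simp [D, G, bq, ← MvPolynomial.algebraMap_eq, TrivSqZeroExt.algebraMap_eq_inl, pow_two]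
  · simp [D, G, ← MvPolynomial.algebraMap_eq, TrivSqZeroExt.algebraMap_eq_inl, pow_two]
    ring

/-! ### binary forms -/

theorem quartic_coeffs [Infinite K] (a b c d e : K)
    (h : ∀ s t : K, s ^ 4 * a + s ^ 3 * t * b + s ^ 2 * t ^ 2 * c + s * t ^ 3 * d + t ^ 4 * e = 0) :
    a = 0 ∧ b = 0 ∧ c = 0 ∧ d = 0 ∧ e = 0 := by
  obtain ⟨h1, h2, h3, h4, h5, -, -⟩ := sextic_coeffs a b c d e 0 0 (by
    intro t
    have := h 1 t
    linear_combination this)
  exact ⟨h1, h2, h3, h4, h5⟩

theorem cubic_zero [IsAlgClosed K] (a b c d : K) :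
    ∃ s t : K, (s ≠ 0 ∨ t ≠ 0) ∧ s ^ 3 * a + s ^ 2 * t * b + s * t ^ 2 * c + t ^ 3 * d = 0 := by
  by_cases ha : a = 0
  · exact ⟨1, 0, Or.inl one_ne_zero, by simp [ha]⟩
  · have hdeg : (Polynomial.C a * Polynomial.X ^ 3 + Polynomial.C b * Polynomial.X ^ 2 +
        Polynomial.C c * Polynomial.X + Polynomial.C d).degree ≠ 0 := by
      rw [Polynomial.degree_cubic ha]; decide
    obtain ⟨x, hx⟩ := IsAlgClosed.exists_root _ hdeg
    refine ⟨x, 1, Or.inr one_ne_zero, ?_⟩
    simp [Polynomial.IsRoot.def] at hx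
    linear_combination hx

theorem factor (a0 a1 a2 s1 t1 : K) (h1 : s1 ≠ 0 ∨ t1 ≠ 0)
    (h : s1 ^ 2 * a0 + s1 * t1 * a1 + t1 ^ 2 * a2 = 0) :
    ∃ n m : K, ∀ s t : K, s ^ 2 * a0 + s * t * a1 + t ^ 2 * a2 =
      (t1 * s - s1 * t) * (n * s + m * t) := by
  by_cases ht : t1 = 0
  · have hs : s1 ≠ 0 := by
      rcases h1 with h1 | h1
      · exact h1
      · exact absurd ht h1
    have ha : a0 = 0 := by
      subst ht
      have : s1 ^ 2 * a0 = 0 := by linear_combination h
      rcases mul_eq_zero.mp this with h3 | h3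
      · exact absurd (pow_eq_zero_iff (two_ne_zero)|>.mp h3) hs
      · exact h3
    refine ⟨-a1 / s1, -a2 / s1, ?_⟩
    intro s t
    subst ht ha
    field_simp
    ring
  · refine ⟨a0 / t1, (a1 + s1 * (a0 / t1)) / t1, ?_⟩
    intro s t
    have h2 : a2 = -(s1 ^ 2 * a0 + s1 * t1 * a1) / t1 ^ 2 := by
      field_simp
      linear_combination h
    rw [h2]
    field_simp
    ring

/-- The algebra behind the rigidity of exceptional curves: a binary quadratic form `A` and a
binary cubic form `B` without common zero admit only trivial relations `B L + A C = 0` with `L`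
linear and `C` quadratic. -/
theorem forms_relation [IsAlgClosed K] (a0 a1 a2 b0 b1 b2 b3 l0 l1 c0 c1 c2 : K)
    (hz : ∀ s t : K, (s ≠ 0 ∨ t ≠ 0) → s ^ 2 * a0 + s * t * a1 + t ^ 2 * a2 = 0 →
      s ^ 3 * b0 + s ^ 2 * t * b1 + s * t ^ 2 * b2 + t ^ 3 * b3 ≠ 0)
    (h : ∀ s t : K, (s ^ 3 * b0 + s ^ 2 * t * b1 + s * t ^ 2 * b2 + t ^ 3 * b3) *
      (s * l0 + t * l1) + (s ^ 2 * a0 + s * t * a1 + t ^ 2 * a2) *
      (s ^ 2 * c0 + s * t * c1 + t ^ 2 * c2) = 0) :
    l0 = 0 ∧ l1 = 0 ∧ c0 = 0 ∧ c1 = 0 ∧ c2 = 0 := by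
  obtain ⟨s1, t1, hst, hA⟩ := quad_zero a0 a1 a2
  have hB := hz s1 t1 hst hA
  -- the linear form vanishes at the zero of `A`
  have hL : s1 * l0 + t1 * l1 = 0 := by
    have := h s1 t1
    rw [hA, zero_mul, add_zero] at this
    exact (mul_eq_zero.mp this).resolve_left hB
  obtain ⟨lam, hl0, hl1⟩ : ∃ lam : K, l0 = lam * t1 ∧ l1 = -(lam * s1) := by
    by_cases ht : t1 = 0
    · have hs : s1 ≠ 0 := by
        rcases hst with h1 | h1
        · exact h1
        · exact absurd ht h1
      refine ⟨-l1 / s1, ?_, ?_⟩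
      · subst ht
        have : s1 * l0 = 0 := by linear_combination hL
        rw [(mul_eq_zero.mp this).resolve_left hs]
        ring
      · field_simp
    · refine ⟨l0 / t1, ?_, ?_⟩
      · field_simp
      · field_simp
        linear_combination hL
  obtain ⟨n, m, hfac⟩ := factor a0 a1 a2 s1 t1 hst hA
  -- cancel the linear factor
  have key : ∀ s t : K, lam * (s ^ 3 * b0 + s ^ 2 * t * b1 + s * t ^ 2 * b2 + t ^ 3 * b3) +
      (n * s + m * t) * (s ^ 2 * c0 + s * t * c1 + t ^ 2 * c2) = 0 := by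
    have hq := quartic_coeffs (t1 * (lam * b0 + n * c0))
      (t1 * (lam * b1 + n * c1 + m * c0) - s1 * (lam * b0 + n * c0))
      (t1 * (lam * b2 + n * c2 + m * c1) - s1 * (lam * b1 + n * c1 + m * c0))
      (t1 * (lam * b3 + m * c2) - s1 * (lam * b2 + n * c2 + m * c1))
      (-(s1 * (lam * b3 + m * c2))) (by
        intro s t
        have := h s t
        rw [hfac, hl0, hl1] at this
        linear_combination this)
    obtain ⟨q1, q2, q3, q4, q5⟩ := hq
    have hall : lam * b0 + n * c0 = 0 ∧ lam * b1 + n * c1 + m * c0 = 0 ∧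
        lam * b2 + n * c2 + m * c1 = 0 ∧ lam * b3 + m * c2 = 0 := by
      by_cases ht : t1 = 0
      · have hs : s1 ≠ 0 := by
          rcases hst with h1 | h1
          · exact h1
          · exact absurd ht h1
        rw [ht] at q2 q3 q4
        refine ⟨?_, ?_, ?_, ?_⟩
        · exact (mul_eq_zero.mp (by linear_combination -q2 : s1 * (lam * b0 + n * c0) = 0)).resolve_left hs
        · exact (mul_eq_zero.mp (by linear_combination -q3 :
            s1 * (lam * b1 + n * c1 + m * c0) = 0)).resolve_left hs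
        · exact (mul_eq_zero.mp (by linear_combination -q4 :
            s1 * (lam * b2 + n * c2 + m * c1) = 0)).resolve_left hs
        · exact (mul_eq_zero.mp (by linear_combination -q5 :
            s1 * (lam * b3 + m * c2) = 0)).resolve_left hs
      · have r1 := (mul_eq_zero.mp q1).resolve_left ht
        rw [r1] at q2
        have r2 := (mul_eq_zero.mp (by linear_combination q2 :
          t1 * (lam * b1 + n * c1 + m * c0) = 0)).resolve_left ht
        rw [r2] at q3
        have r3 := (mul_eq_zero.mp (by linear_combination q3 :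
          t1 * (lam * b2 + n * c2 + m * c1) = 0)).resolve_left ht
        rw [r3] at q4
        have r4 := (mul_eq_zero.mp (by linear_combination q4 :
          t1 * (lam * b3 + m * c2) = 0)).resolve_left ht
        exact ⟨r1, r2, r3, r4⟩
    obtain ⟨r1, r2, r3, r4⟩ := hall
    intro s t
    linear_combination s ^ 3 * r1 + s ^ 2 * t * r2 + s * t ^ 2 * r3 + t ^ 3 * r4
  -- a zero of the second factor of `A`
  obtain ⟨s2, t2, hst2, hN⟩ := lin_zero n m
  have hA2 : s2 ^ 2 * a0 + s2 * t2 * a1 + t2 ^ 2 * a2 = 0 := by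
    rw [hfac]
    linear_combination (t1 * s2 - s1 * t2) * hN
  have hB2 := hz s2 t2 hst2 hA2
  have hlam : lam = 0 := by
    have := key s2 t2
    have h3 : n * s2 + m * t2 = 0 := by linear_combination hN
    rw [h3, zero_mul, add_zero] at this
    exact (mul_eq_zero.mp this).resolve_right hB2
  have hl0' : l0 = 0 := by rw [hl0, hlam, zero_mul]
  have hl1' : l1 = 0 := by rw [hl1, hlam, zero_mul, neg_zero]
  -- `A` is not zero
  have hAne : ¬ (a0 = 0 ∧ a1 = 0 ∧ a2 = 0) := by
    rintro ⟨rfl, rfl, rfl⟩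
    obtain ⟨s, t, hst3, h3⟩ := cubic_zero b0 b1 b2 b3
    exact hz s t hst3 (by ring) h3
  have hpoly : (Polynomial.C a0 + Polynomial.C a1 * Polynomial.X +
      Polynomial.C a2 * Polynomial.X ^ 2) * (Polynomial.C c0 + Polynomial.C c1 * Polynomial.X +
      Polynomial.C c2 * Polynomial.X ^ 2) = 0 := by
    apply Polynomial.funext
    intro t
    have := h 1 t
    rw [hl0', hl1'] at this
    simp only [Polynomial.eval_mul, Polynomial.eval_add, Polynomial.eval_C, Polynomial.eval_X,
      Polynomial.eval_pow, Polynomial.eval_zero]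
    linear_combination this
  rcases mul_eq_zero.mp hpoly with h3 | h3
  · exfalso
    apply hAne
    refine ⟨?_, ?_, ?_⟩
    · have := congrArg (fun p => Polynomial.coeff p 0) h3
      simpa [Polynomial.coeff_X, Polynomial.coeff_C, Polynomial.coeff_X_pow] using this
    · have := congrArg (fun p => Polynomial.coeff p 1) h3
      simpa [Polynomial.coeff_X, Polynomial.coeff_C, Polynomial.coeff_X_pow] using this
    · have := congrArg (fun p => Polynomial.coeff p 2) h3
      simpa [Polynomial.coeff_X, Polynomial.coeff_C, Polynomial.coeff_X_pow] using this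
  · refine ⟨hl0', hl1', ?_, ?_, ?_⟩
    · have := congrArg (fun p => Polynomial.coeff p 0) h3
      simpa [Polynomial.coeff_X, Polynomial.coeff_C, Polynomial.coeff_X_pow] using this
    · have := congrArg (fun p => Polynomial.coeff p 1) h3
      simpa [Polynomial.coeff_X, Polynomial.coeff_C, Polynomial.coeff_X_pow] using this
    · have := congrArg (fun p => Polynomial.coeff p 2) h3
      simpa [Polynomial.coeff_X, Polynomial.coeff_C, Polynomial.coeff_X_pow] using this

end Pool.Agent.Helper11K9.DPT
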